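import Pool.Agent.Helper35.MS.StK

/-!
# Project MS (MP_925021_gt), module QFE: heat operators of `|F|²` and `⟨F,H⟩`
-/

set_option autoImplicit false

namespace Helper27.MS

open Helper35.MS Helper35.PI Helper35.PI2 Helper32.CL
open scoped ContDiff Manifold Topology ENNReal BigOperators
open MeasureTheory Set Filter

private theorem fd_clm (Φ : (ℝ × ℝ × ℝ × ℝ) →L[ℝ] ℝ) (y h : ℝ × ℝ × ℝ × ℝ) :
    fderiv ℝ (⇑Φ) y h = Φ h := by
  rw [ContinuousLinearMap.fderiv]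

private theorem cs_clm (Φ : (ℝ × ℝ × ℝ × ℝ) →L[ℝ] ℝ) : (cφ ⇑Φ).Smooth where
  sφ := Φ.contDiff
  s₁ := contDiff_const
  s₂ := contDiff_const
  s₃ := contDiff_const

/-- the coefficients of the field `F^⊤` -/
private noncomputable def c1 : Co where
  φ := fun _ => 0
  a₁ := fun _ => 0
  a₂ := fun _ => 1
  a₃ := fun _ => 0

private theorem cs_c1 : c1.Smooth where
  sφ := contDiff_const
  s₁ := contDiff_const
  s₂ := contDiff_const
  s₃ := contDiff_const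

section Alg

variable {n N : ℕ} (l : ℝ) (A : Fin n → Fin n → EE N) (T : Fin n → Fin n → Fin n → EE N)
  (ν : EE N) (v : Fin n → ℝ)

private theorem hph_clm (Φ : (ℝ × ℝ × ℝ × ℝ) →L[ℝ] ℝ) :
    hph l (cφ ⇑Φ) A T ν v = Φ (h4 l A T ν v) := by
  unfold hph
  have e : (cφ ⇑Φ).φ = ⇑Φ := rfl
  rw [e, fd_clm]
  have h2 : ∀ k, fderiv ℝ (fun y => fderiv ℝ (⇑Φ) y (g4 l A T ν v k)) (J4 l A ν)
      (g4 l A T ν v k) = 0 := by
    intro k
    have : (fun y => fderiv ℝ (⇑Φ) y (g4 l A T ν v k)) = fun _ => Φ (g4 l A T ν v k) := by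
      funext y
      exact fd_clm _ y _
    rw [this]
    simp
  simp only [h2, Finset.sum_const_zero, sub_zero]

private theorem dvA_clm (Φ : (ℝ × ℝ × ℝ × ℝ) →L[ℝ] ℝ) :
    dvA 0 l (cφ ⇑Φ) A T ν v = -Φ (h4 l A T ν v) := by
  unfold dvA dVa
  rw [hph_clm]
  ring

private theorem gph_c1 (k : Fin n) : gph l c1 A T ν v k = 0 := by
  simp [gph, c1]

private theorem Va_c1 (k : Fin n) : Va 1 c1 A v k = v k := by
  simp [Va, Na, c1]

end Alg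

private theorem dvA_c1 {N : ℕ} (A : Fin 2 → Fin 2 → EE N) (T : Fin 2 → Fin 2 → Fin 2 → EE N)
    (ν : EE N) (v : Fin 2 → ℝ) :
    dvA 1 0 c1 A T ν v = 2 + inner ℝ ν (Hv A) - ∑ k, v k ^ 2 := by
  have e1 : hph 0 c1 A T ν v = 0 := by simp [hph, c1]
  have e2 : dVa 1 c1 A T ν v = 2 + inner ℝ ν (Hv A) := by
    simp only [dVa, Na, dNa, c1, Hv, Fin.sum_univ_two, inner_add_right]
    simp
    ring
  unfold dvA
  rw [e1, e2]
  simp only [gph_c1, Va_c1, Fin.sum_univ_two]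
  ring

/-- the value of `|W|²` in the quadruple -/
private noncomputable def P4 : (ℝ × ℝ × ℝ × ℝ) →L[ℝ] ℝ :=
  (ContinuousLinearMap.snd ℝ ℝ ℝ).comp
    ((ContinuousLinearMap.snd ℝ ℝ (ℝ × ℝ)).comp (ContinuousLinearMap.snd ℝ ℝ (ℝ × ℝ × ℝ)))

/-- the value of `|H|²` in the quadruple -/
private noncomputable def P2 : (ℝ × ℝ × ℝ × ℝ) →L[ℝ] ℝ :=
  (ContinuousLinearMap.fst ℝ ℝ (ℝ × ℝ)).comp (ContinuousLinearMap.snd ℝ ℝ (ℝ × ℝ × ℝ))

private theorem P4_apply (p : ℝ × ℝ × ℝ × ℝ) : P4 p = p.2.2.2 := rfl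

private theorem P2_apply (p : ℝ × ℝ × ℝ × ℝ) : P2 p = p.2.1 := rfl

section Flow

variable {N : ℕ} {M : Type} [TopologicalSpace M] [ChartedSpace (EE 2) M] [IsManifold (𝓡 2) ∞ M]
  {J : Set ℝ} {F : M → ℝ → EE N}

omit [IsManifold (𝓡 2) ∞ M] in
private theorem evo_congr (hJ : IsOpen J) {u w : M → ℝ → ℝ} (h : ∀ q, ∀ t ∈ J, w q t = u q t)
    (hu : Evo J F u) : Evo J F w ∧ ∀ q, ∀ t ∈ J, htF F w q t = htF F u q t := by
  have hev : ∀ q, ∀ t ∈ J, (fun s => w q s) =ᶠ[𝓝 t] (fun s => u q s) := fun q t ht => by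
    filter_upwards [hJ.mem_nhds ht] with s hs using h q s hs
  have hd : ∀ q, ∀ t ∈ J, deriv (fun s => w q s) t = deriv (fun s => u q s) t :=
    fun q t ht => (hev q t ht).deriv_eq
  have hfun : ∀ t ∈ J, (fun q => w q t) = (fun q => u q t) :=
    fun t ht => funext fun q => h q t ht
  refine ⟨⟨?_, ?_, ?_, ?_, ?_, ?_⟩, ?_⟩
  · exact ContinuousOn.congr hu.c0 fun z hz => h z.1 z.2 hz.2
  · exact ContinuousOn.congr hu.c1 fun z hz => hd z.1 z.2 hz.2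
  · intro q t ht
    rw [hd q t ht]
    exact (hu.hd q t ht).congr_of_eventuallyEq (hev q t ht)
  · intro t ht
    rw [hfun t ht]
    exact hu.sm t ht
  · intro t ht
    rw [hfun t ht]
    exact hu.gr t ht
  · intro t ht q
    rw [hfun t ht]
    exact hu.og t ht q
  · intro q t ht
    unfold htF lapF
    rw [hd q t ht, hfun t ht]

private theorem evl (hMLJ : StMLJ) (hF : IsImmJ (n := 2) J F) (l : ℝ)
    (Φ : (ℝ × ℝ × ℝ × ℝ) →L[ℝ] ℝ) :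
    Evo J F (fun q t => Φ (i4F 2 l F q t)) ∧
    ∀ t ∈ J, gdM 2 F t (fun q => Φ (i4F 2 l F q t)) = WFd 2 0 l (cφ ⇑Φ) F t := by
  obtain ⟨h1, h2, h3, h4, h5, h6, h7, h8⟩ := hMLJ 2 N M J F hF 0 l (cφ ⇑Φ) (cs_clm Φ)
  have hg : ∀ t ∈ J, gdM 2 F t (fun q => Φ (i4F 2 l F q t)) = WFd 2 0 l (cφ ⇑Φ) F t := by
    intro t ht
    funext q
    exact ((h1 t ht).2.2.2.2 q).symm
  refine ⟨⟨h5, h6, h7, fun t ht => (h1 t ht).2.2.2.1, fun t ht => ?_, fun t ht q => ?_⟩, hg⟩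
  · rw [hg t ht]
    exact (h1 t ht).1
  · rw [hg t ht]
    exact (h1 t ht).2.1 q

private theorem htl (hMLJ : StMLJ) (hF : IsMCFJ (n := 2) J F) (q : M) (t : ℝ) (ht : t ∈ J)
    (A : Fin 2 → Fin 2 → EE N) (T : Fin 2 → Fin 2 → Fin 2 → EE N) (ν : EE N) (v : Fin 2 → ℝ)
    (hl : ∀ (κ l : ℝ) (c : Co), c.Smooth →
        ‖WFd 2 κ l c F t q‖ ^ 2 = Real.exp (-(κ * ‖F q t‖ ^ 2 / 2)) ^ 2 *
          ∑ k, (gph l c A T ν v k + Va κ c A v k) ^ 2 ∧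
        dvg (n := 2) F (WFd 2 κ l c F t) q t
          = Real.exp (-(κ * ‖F q t‖ ^ 2 / 2)) *
            (deriv (fun s => c.φ (i4F 2 l F q s)) t + dvA κ l c A T ν v))
    (l : ℝ) (Φ : (ℝ × ℝ × ℝ × ℝ) →L[ℝ] ℝ) :
    htF F (fun q t => Φ (i4F 2 l F q t)) q t = Φ (h4 l A T ν v) := by
  obtain ⟨-, a2⟩ := hl 0 l (cφ ⇑Φ) (cs_clm Φ)
  have he : Real.exp (-(0 * ‖F q t‖ ^ 2 / 2)) = 1 := by simp
  have hw := (evl hMLJ hF.toIsImmJ l Φ).2 t ht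
  have e1 : lapF F (fun q t => Φ (i4F 2 l F q t)) q t =
      dvg (n := 2) F (WFd 2 0 l (cφ ⇑Φ) F t) q t := by
    unfold lapF
    rw [hw]
  have e2 : deriv (fun s => (cφ ⇑Φ).φ (i4F 2 l F q s)) t =
      deriv (fun s => Φ (i4F 2 l F q s)) t := rfl
  unfold htF
  rw [e1, a2, e2, dvA_clm, he]
  ring

/-- the gradient of `|F|²` -/
private theorem grad_sq (hI2J : StI2J) (hF : IsImmJ (n := 2) J F) (t : ℝ) (ht : t ∈ J) :
    gdM 2 F t (fun q => ‖F q t‖ ^ 2) =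
      fun q => (2 * Real.exp (‖F q t‖ ^ 2 / 2)) • WFd 2 1 0 c1 F t q := by
  funext q
  have hfx : loc (n := 2) F q t (chartAt (EE 2) q q) = F q t := by
    unfold loc
    rw [(chartAt (EE 2) q).left_inv (mem_chart_source (EE 2) q)]
  have hdiff : DifferentiableAt ℝ (loc (n := 2) F q t) (chartAt (EE 2) q q) := by
    have h1 := hI2J 2 N M J F hF q
    have hx : chartAt (EE 2) q q ∈ (chartAt (EE 2) q).target := mem_chart_target (EE 2) q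
    have hnh : (chartAt (EE 2) q).target ×ˢ J ∈ 𝓝 ((chartAt (EE 2) q q, t) : EE 2 × ℝ) :=
      ((chartAt (EE 2) q).open_target.prod hF.op).mem_nhds ⟨hx, ht⟩
    have h2 := (h1.contDiffAt hnh).differentiableAt (by simp)
    have h3 : DifferentiableAt ℝ (fun y : EE 2 => ((y, t) : EE 2 × ℝ)) (chartAt (EE 2) q q) :=
      differentiableAt_id.prodMk (differentiableAt_const t)
    exact DifferentiableAt.comp (chartAt (EE 2) q q)
      (g := fun z : EE 2 × ℝ => F ((chartAt (EE 2) q).symm z.1) z.2) h2 h3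
  have hfd : ∀ k : Fin 2, fderiv ℝ (fun y => ‖F ((chartAt (EE 2) q).symm y) t‖ ^ 2)
      (chartAt (EE 2) q q) (ee k) =
        2 * inner ℝ (F q t) (dv1 (loc (n := 2) F q t) (chartAt (EE 2) q q) k) := by
    intro k
    have h4 := hdiff.hasFDerivAt.norm_sq
    have h5 : fderiv ℝ (fun y => ‖loc (n := 2) F q t y‖ ^ 2) (chartAt (EE 2) q q) = _ := h4.fderiv
    have h6 : (fun y => ‖F ((chartAt (EE 2) q).symm y) t‖ ^ 2) =
        fun y => ‖loc (n := 2) F q t y‖ ^ 2 := rfl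
    rw [h6, h5, hfx]
    simp [dv1]
  have hE : Real.exp (‖F q t‖ ^ 2 / 2) * Real.exp (-(1 * ‖F q t‖ ^ 2 / 2)) = 1 := by
    rw [← Real.exp_add]
    have : ‖F q t‖ ^ 2 / 2 + -(1 * ‖F q t‖ ^ 2 / 2) = 0 := by ring
    rw [this, Real.exp_zero]
  unfold gdM WFd wf wc
  rw [Finset.smul_sum]
  refine Finset.sum_congr rfl fun k _ => ?_
  rw [Finset.smul_sum]
  refine Finset.sum_congr rfl fun m _ => ?_
  rw [smul_smul, hfd k, hfx]
  congr 1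
  have e1 : fderiv ℝ (fun y => c1.φ (i4 0 (loc (n := 2) F q t) y)) (chartAt (EE 2) q q) (ee k)
      = 0 := by
    simp [c1]
  have e2 : nvf c1 (loc (n := 2) F q t) (chartAt (EE 2) q q) = 0 := by
    simp [nvf, c1]
  have e3 : c1.a₂ (i3 (loc (n := 2) F q t) (chartAt (EE 2) q q)) = 1 := rfl
  rw [e1, e2, e3]
  simp only [inner_zero_left, zero_mul, mul_zero, Finset.sum_const_zero, add_zero, zero_add,
    one_mul]
  rw [one_mul] at hE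
  generalize (gram (loc (n := 2) F q t) (chartAt (EE 2) q q))⁻¹ k m = g
  generalize inner ℝ (F q t) (dv1 (loc (n := 2) F q t) (chartAt (EE 2) q q) k) = z at *
  linear_combination (-(2 * g * z)) * hE

private theorem sq_part (hMLJ : StMLJ) (hMDJ : StMDJ) (hPRJ : StPRJ) (hI4J : StI4J)
    (hI2J : StI2J) (hF : IsMCFJ (n := 2) J F) :
    Evo J F (fun q t => ‖F q t‖ ^ 2) ∧
      ∀ q, ∀ t ∈ J, htF F (fun q t => ‖F q t‖ ^ 2) q t = -4 := by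
  obtain ⟨i1, i2, -, -⟩ := hI4J 2 N M J F hF.toIsImmJ
  obtain ⟨w1, -, -, -, -, -, -, -⟩ := hMLJ 2 N M J F hF.toIsImmJ 1 0 c1 cs_c1
  have hder : ∀ q, ∀ t ∈ J, HasDerivAt (fun s => ‖F q s‖ ^ 2)
      (2 * inner ℝ (F q t) (HH (n := 2) F q t)) t := fun q t ht => (hF.flow q t ht).norm_sq
  have hsm : ∀ t ∈ J, ∀ ζ : ℝ → ℝ, ContDiff ℝ 1 ζ →
      ContMDiff (𝓡 2) 𝓘(ℝ, ℝ) 1 (fun q => ζ (‖F q t‖ ^ 2)) := by
    intro t ht ζ hζ
    obtain ⟨-, -, -, -, h5⟩ := hPRJ 2 N M J F hF.toIsImmJ t ht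
    obtain ⟨r, -, -, h6⟩ := h5 0
    have h7 := (h6 ζ hζ).2.1
    simp only [sub_zero] at h7
    exact h7
  have hsm0 : ∀ t ∈ J, ContMDiff (𝓡 2) 𝓘(ℝ, ℝ) 1 (fun q => ‖F q t‖ ^ 2) :=
    fun t ht => hsm t ht (fun x => x) contDiff_id
  have hζ : ContDiff ℝ 1 (fun s : ℝ => 2 * Real.exp (s / 2)) := by fun_prop
  have hEvo : Evo J F (fun q t => ‖F q t‖ ^ 2) := by
    refine ⟨?_, ?_, ?_, hsm0, ?_, ?_⟩
    · exact (ContinuousOn.norm i1).pow 2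
    · have h1 : ContinuousOn (fun z : M × ℝ => 2 * (inner ℝ (F z.1 z.2)
          (HH (n := 2) F z.1 z.2) : ℝ)) (univ ×ˢ J) :=
        continuousOn_const.mul (ContinuousOn.inner i1 i2)
      exact ContinuousOn.congr h1 fun z hz => (hder z.1 z.2 hz.2).deriv
    · intro q t ht
      exact (hder q t ht).differentiableAt.hasDerivAt
    · intro t ht
      rw [grad_sq hI2J hF.toIsImmJ t ht]
      exact (hsm t ht _ hζ).smul (w1 t ht).1
    · intro t ht q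
      rw [grad_sq hI2J hF.toIsImmJ t ht, real_inner_smul_right, (w1 t ht).2.1 q, mul_zero]
  refine ⟨hEvo, ?_⟩
  intro q t ht
  obtain ⟨A, T, ν, v, -, -, -, hH, -, -, -, hFH, -, hl⟩ := hMDJ 2 N M J F hF q t ht
  obtain ⟨a1, a2⟩ := hl 1 0 c1 cs_c1
  obtain ⟨p1, -, -, p4, -⟩ := hPRJ 2 N M J F hF.toIsImmJ t ht
  have hE : Real.exp (‖F q t‖ ^ 2 / 2) * Real.exp (-(1 * ‖F q t‖ ^ 2 / 2)) = 1 := by
    rw [← Real.exp_add]
    have : ‖F q t‖ ^ 2 / 2 + -(1 * ‖F q t‖ ^ 2 / 2) = 0 := by ring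
    rw [this, Real.exp_zero]
  have hdζ : deriv (fun s : ℝ => 2 * Real.exp (s / 2)) (‖F q t‖ ^ 2) =
      Real.exp (‖F q t‖ ^ 2 / 2) := by
    have h1 : HasDerivAt (fun s : ℝ => s / 2) (1 / 2) (‖F q t‖ ^ 2) :=
      (hasDerivAt_id _).div_const 2
    have h2 := (h1.exp).const_mul 2
    rw [h2.deriv]
    ring
  have hg := p4 (fun q => ‖F q t‖ ^ 2) (hsm0 t ht) _ hζ q
  rw [hdζ, congrFun (grad_sq hI2J hF.toIsImmJ t ht) q] at hg
  have hlap : lapF F (fun q t => ‖F q t‖ ^ 2) q t = 4 + 2 * inner ℝ ν (Hv A) := by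
    unfold lapF
    rw [grad_sq hI2J hF.toIsImmJ t ht]
    rw [p1 (fun q => 2 * Real.exp (‖F q t‖ ^ 2 / 2)) (hsm t ht _ hζ) (WFd 2 1 0 c1 F t)
      (w1 t ht).1 q]
    have hg' : gdM 2 F t (fun q => 2 * Real.exp (‖F q t‖ ^ 2 / 2)) q =
        Real.exp (‖F q t‖ ^ 2 / 2) • (2 * Real.exp (‖F q t‖ ^ 2 / 2)) • WFd 2 1 0 c1 F t q := hg
    have e1 : deriv (fun s => c1.φ (i4F 2 0 F q s)) t = 0 := by simp [c1]
    rw [hg', real_inner_smul_left, real_inner_smul_left, real_inner_self_eq_norm_sq, a1, a2, e1,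
      dvA_c1]
    simp only [gph_c1, Va_c1, zero_add]
    generalize Real.exp (‖F q t‖ ^ 2 / 2) = x at hE ⊢
    generalize Real.exp (-(1 * ‖F q t‖ ^ 2 / 2)) = y at hE ⊢
    generalize ∑ k, v k ^ 2 = s
    generalize inner ℝ ν (Hv A) = z
    have hE2 : x * x * (y ^ 2) = 1 := by
      have : x * x * y ^ 2 = (x * y) ^ 2 := by ring
      rw [this, hE, one_pow]
    linear_combination (2 * (2 + z - s)) * hE + 2 * s * hE2
  unfold htF
  rw [(hder q t ht).deriv, hlap, hFH]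
  ring

end Flow

private theorem algFH {N : ℕ} (A : Fin 2 → Fin 2 → EE N) (T : Fin 2 → Fin 2 → Fin 2 → EE N)
    (ν : EE N) (v : Fin 2 → ℝ) :
    1 * (1 / 2 * hW 1 A T ν v + -1 / 2 * hW 0 A T ν v) + -1 / 2 * hY A T =
      2 * (∑ k, (inner ℝ (et T k) (∑ a, v a • A k a) : ℝ))
          + 2 * (∑ i, ∑ j, (inner ℝ (A i j) ν : ℝ) * inner ℝ (A i j) (Hv A)) + 2 * YY A := by
  have e1 : ∀ k, ‖DW 1 A T v k‖ ^ 2 = ‖et T k‖ ^ 2 - 2 * inner ℝ (et T k) (∑ a, v a • A k a)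
      + ‖∑ a, v a • A k a‖ ^ 2 := by
    intro k
    unfold DW
    rw [one_smul, norm_sub_sq_real]
  have e0 : ∀ k, ‖DW 0 A T v k‖ ^ 2 = ‖∑ a, v a • A k a‖ ^ 2 := by
    intro k
    unfold DW
    rw [zero_smul, zero_sub, norm_neg]
  have e2 : ∀ x : EE N, (inner ℝ x (Wl 1 A ν) : ℝ) = inner ℝ x ν + inner ℝ x (Hv A) := by
    intro x
    unfold Wl
    rw [one_smul, inner_add_right]
  have e3 : Wl 0 A ν = ν := by
    unfold Wl
    rw [zero_smul, add_zero]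
  have e4 : (inner ℝ (Hv A) (Hv A) : ℝ) = ‖Hv A‖ ^ 2 := real_inner_self_eq_norm_sq _
  unfold hW hY ZZ YY zz
  simp only [e1, e0, e2, e3, e4]
  simp only [Fin.sum_univ_two]
  ring

/-- **QFE** -/
theorem hQFE (hMLJ : StMLJ) (hMDJ : StMDJ) (hPRJ : StPRJ) (hLIN : StLIN) (hI4J : StI4J)
    (hI2J : StI2J) : StQFE := by
  intro N M _ _ _ J F hF
  have hI := hF.toIsImmJ
  obtain ⟨hsq, hsq4⟩ := sq_part hMLJ hMDJ hPRJ hI4J hI2J hF
  have hY := (evl hMLJ hI 0 P2).1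
  have hu1 := (evl hMLJ hI 1 P4).1
  have hu0 := (evl hMLJ hI 0 P4).1
  have hYeq : (fun q t => P2 (i4F 2 0 F q t)) = YF F := rfl
  have hY' : Evo J F (YF F) := hY
  obtain ⟨hw, hw'⟩ := hLIN N M J F hI _ _ (1 / 2) (-1 / 2) hu1 hu0
  obtain ⟨hz, hz'⟩ := hLIN N M J F hI _ _ 1 (-1 / 2) hw hY
  have hfe : ∀ q, ∀ t ∈ J, (inner ℝ (F q t) (HH (n := 2) F q t) : ℝ) =
      1 * (1 / 2 * P4 (i4F 2 1 F q t) + -1 / 2 * P4 (i4F 2 0 F q t)) +
        -1 / 2 * P2 (i4F 2 0 F q t) := by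
    intro q t ht
    obtain ⟨-, -, -, -, -, -, -, h8⟩ := hMLJ 2 N M J F hI 0 1 (cφ ⇑P4) (cs_clm P4)
    obtain ⟨h9, h10, -⟩ := h8 q t ht
    rw [P4_apply, P4_apply, P2_apply]
    change _ = 1 * (1 / 2 * ‖wvF 2 1 F q t‖ ^ 2 + -1 / 2 * ‖wvF 2 0 F q t‖ ^ 2) +
      -1 / 2 * ‖HH (n := 2) F q t‖ ^ 2
    rw [h9, one_smul, norm_add_sq_real, h10]
    ring
  obtain ⟨hFH, hFH'⟩ := evo_congr hI.op hfe hz
  refine ⟨hY', hsq, hFH, ?_⟩
  intro q t ht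
  refine ⟨hsq4 q t ht, ?_⟩
  obtain ⟨A, T, ν, v, hA, hT, hX, hH, -, -, hn, hin, -, hl⟩ := hMDJ 2 N M J F hF q t ht
  refine ⟨A, T, ν, v, hA, hT, hX, hH, hn, hin, ?_, ?_⟩
  · have h1 := htl hMLJ hF q t ht A T ν v hl 0 P2
    rw [hYeq] at h1
    rw [h1]
    rfl
  · rw [hFH' q t ht, (hz' q t ht).2, (hw' q t ht).2, htl hMLJ hF q t ht A T ν v hl 1 P4,
      htl hMLJ hF q t ht A T ν v hl 0 P4, htl hMLJ hF q t ht A T ν v hl 0 P2]
    exact algFH A T ν v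

end Helper27.MS
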